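import Pool.Agent.Lib_helper47.WSC.Final
import Pool.Agent.Lib_helper17.Cplx

/-!
Over the real and over the complex numbers there is a separable reflexive Banach space on which
every bounded 2-homogeneous scalar polynomial is weakly sequentially continuous, while some bounded
alternating bilinear form is not.
-/

set_option autoImplicit false
open Filter Topology

namespace Pool.Agent.Results.MP_4285bb_an.RealAndComplex

/-- weak convergence of the sequence `x` to `x0` -/
def WeakTo (𝕜 : Type) [RCLike 𝕜] {X : Type} [NormedAddCommGroup X] [NormedSpace 𝕜 X]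
    (x : ℕ → X) (x0 : X) : Prop :=
  ∀ φ : X →L[𝕜] 𝕜, Tendsto (fun k => φ (x k)) atTop (𝓝 (φ x0))

/-- every bounded functional on the dual is the evaluation at a point -/
def Reflexive (𝕜 : Type) [RCLike 𝕜] (X : Type) [NormedAddCommGroup X] [NormedSpace 𝕜 X] : Prop :=
  ∀ ξ : (X →L[𝕜] 𝕜) →L[𝕜] 𝕜, ∃ x : X, ∀ φ : X →L[𝕜] 𝕜, ξ φ = φ x

/-- `P` is a bounded 2-homogeneous polynomial: `P x = A (x, x)` for a bounded bilinear form `A` -/
def IsQuadratic (𝕜 : Type) [RCLike 𝕜] {X : Type} [NormedAddCommGroup X] [NormedSpace 𝕜 X]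
    (P : X → 𝕜) : Prop :=
  ∃ A : ContinuousMultilinearMap 𝕜 (fun _ : Fin 2 => X) 𝕜, ∀ x, P x = A ![x, x]

open Pool.Agent.WSC Pool.Agent.Lib_helper17.Cplx

/-- the alternating form of the real space -/
theorem exists_alt : ∃ T : XX →L[ℝ] XX →L[ℝ] ℝ, (∀ z, T z z = 0) ∧
    ∀ k, T (io (e k true)) (io (e k false)) = 1 := by
  obtain ⟨T, hT⟩ := exists_form
  refine ⟨-T, ?_, ?_⟩
  · intro z
    have h1 : ∀ x : F, om x x = 0 := by
      intro x
      have h2 := congrArg (fun f : F →ₗ[ℝ] F →ₗ[ℝ] ℝ => f x x) om_flip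
      have h3 : om x x = - om x x := h2
      linarith
    refine dense_io.induction_on (p := fun z => (-T) z z = 0) z
      (isClosed_eq (by fun_prop) continuous_const) ?_
    intro x
    show -(T (io x) (io x)) = 0
    rw [hT, h1, neg_zero]
  · intro k
    show -(T (io (e k true)) (io (e k false))) = 1
    rw [hT, om_e]
    simp

/-- symmetric forms are weakly sequentially continuous -/
theorem sym_tendsto (S : XX →L[ℝ] XX →L[ℝ] ℝ) (hsym : ∀ x y, S x y = S y x) {x y : ℕ → XX}
    {x0 y0 : XX} (hx : WeakTo ℝ x x0) (hy : WeakTo ℝ y y0) :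
    Tendsto (fun k => S (x k) (y k)) atTop (𝓝 (S x0 y0)) := by
  have hd : ∀ {x : ℕ → XX} {x0 : XX}, WeakTo ℝ x x0 → WNull (fun k => x k - x0) := by
    intro x x0 hx φ
    have := (hx φ).sub_const (φ x0)
    rw [sub_self] at this
    exact this.congr fun k => (map_sub φ _ _).symm
  obtain ⟨C, hC⟩ := (hd hy).bounded
  have hyb : ∀ k, ‖y k‖ ≤ C + ‖y0‖ := by
    intro k
    calc ‖y k‖ = ‖(y k - y0) + y0‖ := by rw [sub_add_cancel]
      _ ≤ ‖y k - y0‖ + ‖y0‖ := norm_add_le _ _
      _ ≤ C + ‖y0‖ := by have := hC k; linarith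
  have h1 := sym_wsc S hsym (hd hx) hyb
  have h2 := (hd hy) (S x0)
  have h3 : ∀ k, S (x k) (y k) = (S (x k - x0) (y k) + S x0 (y k - y0)) + S x0 y0 := by
    intro k
    rw [map_sub S, map_sub (S x0), sub_apply]
    ring
  simp_rw [h3]
  have := (h1.add h2).add_const (S x0 y0)
  simpa using this

/-- the symmetrized form -/
noncomputable def sy (D : XX →L[ℝ] XX →L[ℝ] ℝ) : XX →L[ℝ] XX →L[ℝ] ℝ := D + D.flip

theorem sy_apply (D : XX →L[ℝ] XX →L[ℝ] ℝ) (x y : XX) : sy D x y = D x y + D y x := rfl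

theorem sy_symm (D : XX →L[ℝ] XX →L[ℝ] ℝ) (x y : XX) : sy D x y = sy D y x := by
  rw [sy_apply, sy_apply, add_comm]

section Gen

variable {𝕜 : Type} [RCLike 𝕜]

/-- the bilinear map of a form in two variables -/
theorem exists_bil {X : Type} [NormedAddCommGroup X] [NormedSpace 𝕜 X]
    (A : ContinuousMultilinearMap 𝕜 (fun _ : Fin 2 => X) 𝕜) :
    ∃ D : X →L[𝕜] X →L[𝕜] 𝕜, ∀ x y, D x y = A ![x, y] := by
  refine ⟨((continuousMultilinearCurryFin1 𝕜 X 𝕜).toContinuousLinearEquiv.toContinuousLinearMap).comp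
      A.curryLeft, fun x y => ?_⟩
  have h1 : A.curryLeft x (fun _ => y) = A (Fin.cons x (fun _ => y)) := rfl
  have h2 : (((continuousMultilinearCurryFin1 𝕜 X 𝕜).toContinuousLinearEquiv.toContinuousLinearMap
      ).comp A.curryLeft) x y = A.curryLeft x (fun _ => y) := rfl
  rw [h2, h1]
  congr 1
  funext i
  refine Fin.cases ?_ ?_ i
  · rfl
  · intro j
    have : j = 0 := Subsingleton.elim _ _
    subst this
    rfl

/-- a form in two variables from a bilinear map -/
theorem exists_mul {X : Type} [NormedAddCommGroup X] [NormedSpace 𝕜 X]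
    (T : X →L[𝕜] X →L[𝕜] 𝕜) :
    ∃ A : ContinuousMultilinearMap 𝕜 (fun _ : Fin 2 => X) 𝕜, ∀ x y, A ![x, y] = T x y :=
  ⟨(((continuousMultilinearCurryFin1 𝕜 X
      𝕜).symm.toContinuousLinearEquiv.toContinuousLinearMap).comp T).uncurryLeft, fun _ _ => rfl⟩

/-- the real part of the restriction of a form -/
noncomputable def reD (D : XC 𝕜 XX →L[𝕜] XC 𝕜 XX →L[𝕜] 𝕜) : XX →L[ℝ] XX →L[ℝ] ℝ :=
  LinearMap.mkContinuous₂ (LinearMap.mk₂ ℝ (fun u v => RCLike.re (D (jj u) (jj v)))
    (fun u u' v => by rw [jj_add, map_add, add_apply, map_add])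
    (fun c u v => by
      rw [jj_smul, map_smul, smul_apply, smul_eq_mul, smul_eq_mul, RCLike.re_ofReal_mul])
    (fun u v v' => by rw [jj_add, map_add, map_add])
    (fun c u v => by
      rw [jj_smul, map_smul, smul_eq_mul, smul_eq_mul, RCLike.re_ofReal_mul])) ‖D‖
    (fun u v => by
      show |RCLike.re (D (jj u) (jj v))| ≤ _
      refine (RCLike.abs_re_le_norm _).trans ?_
      refine (D.le_opNorm₂ _ _).trans ?_
      have h1 := jj_le (𝕜 := 𝕜) u
      have h2 := jj_le (𝕜 := 𝕜) v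
      gcongr)

theorem reD_apply (D : XC 𝕜 XX →L[𝕜] XC 𝕜 XX →L[𝕜] 𝕜) (u v : XX) :
    reD D u v = RCLike.re (D (jj u) (jj v)) := rfl

/-- the sum of a form and its transpose on the real part -/
theorem sum_eq (D : XC 𝕜 XX →L[𝕜] XC 𝕜 XX →L[𝕜] 𝕜) (u v : XX) :
    D (jj u) (jj v) + D (jj v) (jj u) =
      (sy (reD D) u v : 𝕜) - (RCLike.I : 𝕜) * (sy (reD ((RCLike.I : 𝕜) • D)) u v : 𝕜) := by
  rw [sy_apply, sy_apply, reD_apply, reD_apply, reD_apply, reD_apply]
  have h1 : ∀ a b, RCLike.re (((RCLike.I : 𝕜) • D) a b) = -RCLike.im (D a b) := by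
    intro a b
    show RCLike.re ((RCLike.I : 𝕜) * D a b) = _
    rw [RCLike.I_mul_re]
  rw [h1, h1]
  have h2 : ∀ a b, D a b = ((RCLike.re (D a b) : ℝ) : 𝕜) +
      ((RCLike.im (D a b) : ℝ) : 𝕜) * (RCLike.I : 𝕜) := fun a b => (RCLike.re_add_im _).symm
  conv_lhs => rw [h2 (jj u) (jj v), h2 (jj v) (jj u)]
  rw [RCLike.ofReal_add, RCLike.ofReal_add, RCLike.ofReal_neg, RCLike.ofReal_neg]
  ring

/-- the symmetrized form is weakly sequentially continuous -/
theorem key (D : XC 𝕜 XX →L[𝕜] XC 𝕜 XX →L[𝕜] 𝕜) {u v : ℕ → XX} {u0 v0 : XX}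
    (hu : Wk ℝ u u0) (hv : Wk ℝ v v0) :
    Tendsto (fun k => D (jj (u k)) (jj (v k)) + D (jj (v k)) (jj (u k))) atTop
      (𝓝 (D (jj u0) (jj v0) + D (jj v0) (jj u0))) := by
  simp only [sum_eq]
  have h1 := ((RCLike.continuous_ofReal (K := 𝕜)).tendsto _).comp
    (sym_tendsto (sy (reD D)) (sy_symm _) hu hv)
  have h2 := ((RCLike.continuous_ofReal (K := 𝕜)).tendsto _).comp
    (sym_tendsto (sy (reD ((RCLike.I : 𝕜) • D))) (sy_symm _) hu hv)
  exact h1.sub (h2.const_mul (RCLike.I : 𝕜))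

end Gen

/-- the real space is separable -/
theorem separable : TopologicalSpace.SeparableSpace XX := by
  rw [← TopologicalSpace.isSeparable_univ_iff]
  have h1 : TopologicalSpace.IsSeparable (Set.range fun p : ℕ × Bool => io (e p.1 p.2)) :=
    (Set.countable_range _).isSeparable
  have h2 := (h1.span (R := ℝ)).closure
  refine h2.mono ?_
  intro z _
  refine closure_mono ?_ (dense_io z)
  rintro _ ⟨x, rfl⟩
  have h3 : x ∈ Submodule.span ℝ (Set.range fun p : ℕ × Bool => (Finsupp.single p (1:ℝ) : F)) := by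
    have h5 : Submodule.span ℝ (Set.range fun p : ℕ × Bool => (Finsupp.single p (1:ℝ) : F)) = ⊤ := by
      have h6 := (Finsupp.basisSingleOne (R := ℝ) (ι := ℕ × Bool)).span_eq
      rw [Finsupp.coe_basisSingleOne] at h6
      exact h6
    rw [h5]
    trivial
  have h4 := Submodule.mem_map_of_mem (f := io) h3
  rw [Submodule.map_span, ← Set.range_comp] at h4
  exact h4

/-- Over every field `𝕜` (real or complex numbers) there is a separable reflexive Banach space
whose bounded 2-homogeneous scalar polynomials are weakly sequentially continuous and which has a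
bounded alternating bilinear form that is not weakly sequentially continuous. -/
theorem result (𝕜 : Type) [RCLike 𝕜] :
    ∃ (X : Type) (_ : NormedAddCommGroup X) (_ : NormedSpace 𝕜 X), CompleteSpace X ∧
      TopologicalSpace.SeparableSpace X ∧ Reflexive 𝕜 X ∧
      (∀ P : X → 𝕜, IsQuadratic 𝕜 P → ∀ (x : ℕ → X) (x0 : X), WeakTo 𝕜 x x0 →
        Tendsto (fun k => P (x k)) atTop (𝓝 (P x0))) ∧
      ∃ A : ContinuousMultilinearMap 𝕜 (fun _ : Fin 2 => X) 𝕜, (∀ x : X, A ![x, x] = 0) ∧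
        ∃ x y : ℕ → X, WeakTo 𝕜 x 0 ∧ WeakTo 𝕜 y 0 ∧ ∀ k, A ![x k, y k] = 1 := by
  have hr := Pool.Agent.WSC.reflexive
  refine ⟨XC 𝕜 XX, inferInstance, inferInstance, inferInstance, ?_, ?_, ?_, ?_⟩
  · have h0 := separable
    have hc : Continuous fun p : XX × XX => (jj p.1 + (RCLike.I : 𝕜) • jj p.2 : XC 𝕜 XX) := by
      have h1 : Continuous (jj : XX → XC 𝕜 XX) := jj_cont
      have h2 : Continuous fun p : XX × XX => (jj p.1 : XC 𝕜 XX) := h1.comp continuous_fst
      have h3 : Continuous fun p : XX × XX => (jj p.2 : XC 𝕜 XX) := h1.comp continuous_snd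
      exact h2.add (h3.const_smul (RCLike.I : 𝕜))
    refine Function.Surjective.denseRange ?_ |>.separableSpace hc
    intro z
    obtain ⟨x, y, h⟩ := exists_parts hr z
    exact ⟨(x, y), h.symm⟩
  · intro ξ
    obtain ⟨x, hx⟩ := Pool.Agent.Lib_helper17.Cplx.reflexive hr ξ
    exact ⟨x, fun φ => by rw [← hx]; rfl⟩
  · rintro P ⟨A, hA⟩ z z0 hz
    simp only [hA]
    obtain ⟨D, hD⟩ := exists_bil A
    obtain ⟨x, y, x0, y0, hxy, h0, hx, hy⟩ := wk_parts hr hz
    have hex : ∀ a b : XX, A ![jj a + (RCLike.I : 𝕜) • jj b, jj a + (RCLike.I : 𝕜) • jj b] =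
        (1 / 2) * (D (jj a) (jj a) + D (jj a) (jj a)) +
          (RCLike.I : 𝕜) * (D (jj a) (jj b) + D (jj b) (jj a)) +
          (RCLike.I * RCLike.I / 2 : 𝕜) * (D (jj b) (jj b) + D (jj b) (jj b)) := by
      intro a b
      rw [← hD]
      simp only [map_add, map_smul, add_apply, smul_apply, smul_eq_mul]
      ring
    have h1 := (((key D hx hx).const_mul (1 / 2)).add
      ((key D hx hy).const_mul (RCLike.I : 𝕜))).add
      ((key D hy hy).const_mul (RCLike.I * RCLike.I / 2 : 𝕜))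
    rw [← hex] at h1
    rw [h0]
    refine h1.congr fun k => ?_
    rw [← hex, ← hxy]
  · obtain ⟨T, hT1, hT2⟩ := exists_alt
    have hT3 : ∀ x y, T x y + T y x = 0 := by
      intro x y
      have h1 := hT1 (x + y)
      have h2 : T (x + y) (x + y) = T x x + T x y + (T y x + T y y) := by
        rw [map_add (T (x + y)), map_add T]
        show T x x + T y x + (T x y + T y y) = _
        ring
      rw [h2, hT1, hT1] at h1
      linarith
    let TC : XC 𝕜 XX →L[𝕜] XC 𝕜 XX →L[𝕜] 𝕜 :=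
      LinearMap.mkContinuous₂ (bil T) (2 * ‖T‖) (bil_bound T)
    have hTC : ∀ w z, TC w z = bil T w z := fun _ _ => rfl
    obtain ⟨A, hA⟩ := exists_mul TC
    refine ⟨A, ?_, fun k => jj (io (e k false)), fun k => jj (io (e k true)), ?_, ?_, ?_⟩
    · intro z
      obtain ⟨x, y, rfl⟩ := exists_parts hr z
      rw [hA, hTC]
      simp only [map_add, map_smul, LinearMap.add_apply, LinearMap.smul_apply, smul_eq_mul, bil_jj,
        hT1]
      have h2 : (T x y : 𝕜) + (T y x : 𝕜) = 0 := by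
        rw [← RCLike.ofReal_add, hT3, RCLike.ofReal_zero]
      rw [RCLike.ofReal_zero]
      linear_combination (RCLike.I : 𝕜) * h2
    · have h1 : Wk ℝ (fun k => io (e k false)) 0 := by
        intro φ
        rw [map_zero]
        exact e_wnull false φ
      have h2 := wk_jj (𝕜 := 𝕜) h1
      rw [jj_zero] at h2
      exact h2
    · have h1 : Wk ℝ (fun k => io (e k true)) 0 := by
        intro φ
        rw [map_zero]
        exact e_wnull true φ
      have h2 := wk_jj (𝕜 := 𝕜) h1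
      rw [jj_zero] at h2
      exact h2
    · intro k
      rw [hA, hTC, bil_jj, hT2, RCLike.ofReal_one]

end Pool.Agent.Results.MP_4285bb_an.RealAndComplex
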